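import Pool.Agent.W458.MF.NStm
import Pool.Agent.W521.Density

/-!
# Counting the polynomials with the patterns modulo a prime
-/

set_option autoImplicit false

open Polynomial

namespace Pool.Agent.W205.MF

open Pool.Agent.W458.MF

theorem luc_monic (q : ℤ) : ∀ N : ℕ, (luc q (N + 1)).Monic ∧ (luc q (N + 1)).natDegree = N ∧
    (luc q N).degree < (N : WithBot ℕ) := by
  intro N
  induction N with
  | zero =>
    refine ⟨?_, ?_, ?_⟩
    · simp [luc]
    · simp [luc]
    · simp [luc]
  | succ N ih =>
    obtain ⟨h1, h2, h3⟩ := ih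
    have e : luc q (N + 1 + 1) = X * luc q (N + 1) - C q * luc q N := by
      simp [luc]
    have hd : (C q * luc q N).degree < (X * luc q (N + 1)).degree := by
      have h4 : (C q * luc q N).degree ≤ (luc q N).degree := by
        by_cases hq : q = 0
        · simp [hq]
        · rw [degree_C_mul hq]
      refine h4.trans_lt (h3.trans ?_)
      rw [degree_mul, degree_X, degree_eq_natDegree h1.ne_zero, h2]
      have : (N : WithBot ℕ) < ((1 + N : ℕ) : WithBot ℕ) := by
        exact_mod_cast (by omega : N < 1 + N)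
      simpa using this
    have hm : (X * luc q (N + 1)).Monic := monic_X.mul h1
    refine ⟨?_, ?_, ?_⟩
    · rw [e]
      exact hm.sub_of_left hd
    · rw [e, natDegree_sub_eq_left_of_natDegree_lt]
      · rw [natDegree_X_mul h1.ne_zero, h2]
      · by_cases hz : C q * luc q N = 0
        · rw [hz, natDegree_zero, natDegree_X_mul h1.ne_zero]
          omega
        · exact natDegree_lt_natDegree hz hd
    · rw [degree_eq_natDegree h1.ne_zero, h2]
      exact_mod_cast (by omega : N < N + 1)

theorem luc_mod (q : ℤ) (N l : ℕ) [Fact l.Prime] (hN : 0 < N) :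
    ((luc q N).map (Int.castRingHom (ZMod l))).natDegree ≤ N - 1 ∧
    (luc q N).map (Int.castRingHom (ZMod l)) ≠ 0 := by
  obtain ⟨N', rfl⟩ : ∃ N', N = N' + 1 := ⟨N - 1, by omega⟩
  obtain ⟨h1, h2, -⟩ := luc_monic q N'
  refine ⟨?_, (h1.map _).ne_zero⟩
  rw [h1.natDegree_map, h2]
  omega

/-- The non-squares at which `luc q N` does not vanish. -/
noncomputable def NL (N l q : ℕ) [Fact l.Prime] : Finset (ZMod l) := by
  classical
  exact (Pool.Agent.W521.Density.NN l q).filter
    (fun t => ((luc q N).map (Int.castRingHom (ZMod l))).eval t ≠ 0)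

theorem mem_NL (N l q : ℕ) [Fact l.Prime] (t : ZMod l) : t ∈ NL N l q ↔
    ¬ IsSquare (t ^ 2 - 4 * (q : ZMod l)) ∧
    ((luc q N).map (Int.castRingHom (ZMod l))).eval t ≠ 0 := by
  unfold NL
  rw [Finset.mem_filter, Pool.Agent.W521.Density.mem_NN]

theorem card_NL (N l q : ℕ) [Fact l.Prime] (hN : 0 < N) (hl : 4 * N + 12 ≤ l) (hlq : ¬ l ∣ q) :
    l ≤ 4 * (NL N l q).card := by
  classical
  have h1 := Pool.Agent.W521.Density.card_NN l q (by omega) hlq
  obtain ⟨h2, h3⟩ := luc_mod (q : ℤ) N l hN
  have h4 : Pool.Agent.W521.Density.NN l q ⊆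
      NL N l q ∪ ((luc q N).map (Int.castRingHom (ZMod l))).roots.toFinset := by
    intro t ht
    rw [Finset.mem_union]
    by_cases h5 : ((luc q N).map (Int.castRingHom (ZMod l))).eval t = 0
    · right
      rw [Multiset.mem_toFinset, mem_roots h3]
      exact h5
    · left
      rw [mem_NL]
      exact ⟨(Pool.Agent.W521.Density.mem_NN l q t).1 ht, h5⟩
  have h5 := (Finset.card_le_card h4).trans (Finset.card_union_le _ _)
  have h6 : ((luc q N).map (Int.castRingHom (ZMod l))).roots.toFinset.card ≤ N - 1 :=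
    (Multiset.toFinset_card_le _).trans ((card_roots' _).trans h2)
  omega

theorem prod_injective {l : ℕ} [Fact l.Prime] :
    Function.Injective (fun T : Finset (ZMod l) => (∏ t ∈ T, (X - C t) : (ZMod l)[X])) := by
  intro S T h
  have h2 := congrArg roots h
  simp only [roots_prod_X_sub_C] at h2
  exact Finset.val_inj.1 h2

theorem finite_prod {l : ℕ} [Fact l.Prime] :
    (Set.range (fun T : Finset (ZMod l) => (∏ t ∈ T, (X - C t) : (ZMod l)[X]))).Finite :=
  Set.finite_range _

theorem flip_lower (g N l q : ℕ) [Fact l.Prime] (hg : 0 < g) :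
    (NL N l q).card * (Pool.Agent.W521.Density.SS l q).card.choose (g - 1) ≤
      (flipSet g N l q).ncard := by
  classical
  let F : Finset (Finset (ZMod l)) :=
    ((NL N l q) ×ˢ ((Pool.Agent.W521.Density.SS l q).powersetCard (g - 1))).image
      (fun p => insert p.1 p.2)
  let G : Finset (ZMod l)[X] := F.image (fun T => ∏ t ∈ T, (X - C t))
  have hd : ∀ t ∈ NL N l q, t ∉ Pool.Agent.W521.Density.SS l q := by
    intro t h h'
    exact ((mem_NL N l q t).1 h).1 ((Pool.Agent.W521.Density.mem_SS l q t).1 h').1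
  have hF : F.card = (NL N l q).card *
      (Pool.Agent.W521.Density.SS l q).card.choose (g - 1) := by
    rw [Finset.card_image_of_injOn, Finset.card_product, Finset.card_powersetCard]
    rintro ⟨t, T⟩ h ⟨t', T'⟩ h' hh
    obtain ⟨h3, h4⟩ := Finset.mem_product.1 h
    obtain ⟨h3', h4'⟩ := Finset.mem_product.1 h'
    have h5 := (Finset.mem_powersetCard.1 h4).1
    have h5' := (Finset.mem_powersetCard.1 h4').1
    change insert t T = insert t' T' at hh
    have e1 : t = t' := by
      have h6 : t ∈ insert t' T' := hh ▸ Finset.mem_insert_self t T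
      rcases Finset.mem_insert.1 h6 with h7 | h7
      · exact h7
      · exact absurd (h5' h7) (hd t h3)
    subst e1
    have e2 : T = T' := by
      have h7 : t ∉ T := fun h => hd t h3 (h5 h)
      have h7' : t ∉ T' := fun h => hd t h3 (h5' h)
      rw [← Finset.erase_insert h7, hh, Finset.erase_insert h7']
    rw [e2]
  have hG : G.card = F.card := Finset.card_image_of_injective _ prod_injective
  have hsub : (G : Set (ZMod l)[X]) ⊆ flipSet g N l q := by
    intro f hf
    obtain ⟨T, hT, rfl⟩ := Finset.mem_image.1 (Finset.mem_coe.1 hf)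
    obtain ⟨⟨t₀, T'⟩, h1, rfl⟩ := Finset.mem_image.1 hT
    obtain ⟨h3, h4⟩ := Finset.mem_product.1 h1
    obtain ⟨h5, h6⟩ := Finset.mem_powersetCard.1 h4
    have h7 : t₀ ∉ T' := fun h => hd t₀ h3 (h5 h)
    refine ⟨insert t₀ T', t₀, ?_, Finset.mem_insert_self _ _, rfl, ((mem_NL N l q t₀).1 h3).1,
      ((mem_NL N l q t₀).1 h3).2, ?_⟩
    · rw [Finset.card_insert_of_notMem h7]
      change T'.card = g - 1 at h6
      omega
    · intro t ht hne
      exact (Pool.Agent.W521.Density.mem_SS l q t).1
        (h5 ((Finset.mem_insert.1 ht).resolve_left hne))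
  have hfin : (flipSet g N l q).Finite := by
    refine finite_prod.subset ?_
    rintro f ⟨T, t₀, -, -, rfl, -⟩
    exact ⟨T, rfl⟩
  rw [← hF, ← hG, ← Set.ncard_coe_finset]
  exact Set.ncard_le_ncard hsub hfin

theorem split_lower (g l q : ℕ) [Fact l.Prime] :
    (Pool.Agent.W521.Density.SS l q).card.choose g ≤ (splitSet g l q).ncard := by
  classical
  let G : Finset (ZMod l)[X] :=
    ((Pool.Agent.W521.Density.SS l q).powersetCard g).image (fun T => ∏ t ∈ T, (X - C t))
  have hG : G.card = (Pool.Agent.W521.Density.SS l q).card.choose g := by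
    rw [Finset.card_image_of_injective _ prod_injective, Finset.card_powersetCard]
  have hsub : (G : Set (ZMod l)[X]) ⊆ splitSet g l q := by
    intro f hf
    obtain ⟨T, hT, rfl⟩ := Finset.mem_image.1 (Finset.mem_coe.1 hf)
    obtain ⟨h5, h6⟩ := Finset.mem_powersetCard.1 hT
    exact ⟨T, h6, rfl, fun t ht => (Pool.Agent.W521.Density.mem_SS l q t).1 (h5 ht)⟩
  have hfin : (splitSet g l q).Finite := by
    refine finite_prod.subset ?_
    rintro f ⟨T, -, rfl, -⟩
    exact ⟨T, rfl⟩
  rw [← hG, ← Set.ncard_coe_finset]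
  exact Set.ncard_le_ncard hsub hfin

theorem irr_lower (g l : ℕ) [Fact l.Prime] :
    (Pool.Agent.W521.Density.irrSet l g).card ≤ (irrSet g l).ncard := by
  classical
  let G : Finset (ZMod l)[X] :=
    (Pool.Agent.W521.Density.irrSet l g).image (Pool.Agent.W521.Density.mkPoly g)
  have hG : G.card = (Pool.Agent.W521.Density.irrSet l g).card :=
    Finset.card_image_of_injective _ (Pool.Agent.W521.Density.mkPoly_injective g)
  have hsub : (G : Set (ZMod l)[X]) ⊆ irrSet g l := by
    intro f hf
    obtain ⟨a, ha, rfl⟩ := Finset.mem_image.1 (Finset.mem_coe.1 hf)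
    refine ⟨Pool.Agent.W521.Density.mkPoly_monic g a,
      Pool.Agent.W521.Density.mkPoly_natDegree g a, ?_⟩
    unfold Pool.Agent.W521.Density.irrSet at ha
    exact (Finset.mem_filter.1 ha).2
  have hfin : (irrSet g l).Finite := by
    refine (Set.finite_range (Pool.Agent.W521.Density.mkPoly (R := ZMod l) g)).subset ?_
    rintro f ⟨h1, h2, -⟩
    exact ⟨_, Pool.Agent.W521.Density.eq_mkPoly h1 h2⟩
  rw [← hG, ← Set.ncard_coe_finset]
  exact Set.ncard_le_ncard hsub hfin

theorem cnt : St_CNT := by
  intro g N hg hN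
  refine ⟨1 / (4 ^ g * g.factorial), by positivity, 4 * g + 4 * N + 12, ?_⟩
  intro l hl hll q hlq
  have : Fact l.Prime := ⟨hl⟩
  have hc : (0 : ℝ) < 4 ^ g * (g.factorial : ℝ) := by positivity
  have key : ∀ n : ℕ, l ^ g ≤ 4 ^ g * g.factorial * n →
      1 / (4 ^ g * (g.factorial : ℝ)) * (l : ℝ) ^ g ≤ (n : ℝ) := by
    intro n hn
    rw [div_mul_eq_mul_div, one_mul, div_le_iff₀ hc]
    have : ((l ^ g : ℕ) : ℝ) ≤ ((4 ^ g * g.factorial * n : ℕ) : ℝ) := by exact_mod_cast hn
    push_cast at this
    linarith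
  refine ⟨key _ ?_, key _ ?_, key _ ?_⟩
  · refine le_trans ?_ (Nat.mul_le_mul_left _ (flip_lower g N l q hg))
    obtain ⟨g', rfl⟩ : ∃ g', g = g' + 1 := ⟨g - 1, by omega⟩
    have h1 := Pool.Agent.W521.Density.choose_lower l q g' (by omega) hlq
    have h2 : l ≤ 4 * (NL N l q).card := card_NL N l q hN (by omega) hlq
    rw [Nat.add_sub_cancel, pow_succ, pow_succ, Nat.factorial_succ]
    calc l ^ g' * l ≤ (4 ^ g' * g'.factorial *
          (Pool.Agent.W521.Density.SS l q).card.choose g') * (4 * (NL N l q).card) :=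
          Nat.mul_le_mul h1 h2
      _ = 1 * (4 ^ g' * 4 * g'.factorial *
          ((NL N l q).card * (Pool.Agent.W521.Density.SS l q).card.choose g')) := by ring
      _ ≤ (g' + 1) * (4 ^ g' * 4 * g'.factorial *
          ((NL N l q).card * (Pool.Agent.W521.Density.SS l q).card.choose g')) :=
          Nat.mul_le_mul_right _ (by omega)
      _ = _ := by ring
  · refine le_trans ?_ (Nat.mul_le_mul_left _ (split_lower g l q))
    exact Pool.Agent.W521.Density.choose_lower l q g (by omega) hlq
  · refine le_trans ?_ (Nat.mul_le_mul_left _ (irr_lower g l))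
    refine (Pool.Agent.W521.Density.card_irrSet l g (by omega) hg).trans
      (Nat.mul_le_mul_right _ ?_)
    have h1 : 2 ≤ 4 ^ g := by
      calc 2 ≤ 4 ^ 1 := by norm_num
        _ ≤ 4 ^ g := Nat.pow_le_pow_right (by norm_num) hg
    have h2 : g ≤ g.factorial := Nat.self_le_factorial g
    exact Nat.mul_le_mul h1 h2

end Pool.Agent.W205.MF
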